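import Pool.Agent.Helper65.NW.Goals

/-! NW: TREE, the simulation of a network on numbers by a tree is right. -/

set_option autoImplicit false

namespace Pool.Agent.Helper87.NW

open Pool.Agent.Helper65.LinSpace Pool.Agent.Helper78.Mpc Pool.Agent.Helper65.NW Finset

/-! ### Counting and selecting the elements of a set -/

section sel

variable {f : ℕ → ℕ} (hf : ∀ u, f u = 0 ∨ f u = 1)

/-- The number of the elements below `u`. -/
def cn (f : ℕ → ℕ) (u : ℕ) : ℕ := ∑ v ∈ range u, f v

theorem cn_succ (f : ℕ → ℕ) (u : ℕ) : cn f (u + 1) = cn f u + f u := by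
  rw [cn, cn, sum_range_succ]

theorem cn_mono (f : ℕ → ℕ) {u v : ℕ} (h : u ≤ v) : cn f u ≤ cn f v := by
  induction v, h using Nat.le_induction with
  | base => exact le_rfl
  | succ v _ ih => rw [cn_succ]; omega

theorem cn_lt (f : ℕ → ℕ) {u v : ℕ} (hu : f u = 1) (h : u < v) : cn f u < cn f v := by
  have h1 : cn f (u + 1) ≤ cn f v := cn_mono f h
  rw [cn_succ, hu] at h1
  omega

include hf in
theorem sel_cn {W u : ℕ} (hu : f u = 1) (h : u < W) :
    ∑ v ∈ range W, f v * (eq01 (cn f v) (cn f u) * v) = u := by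
  rw [sum_eq_single u]
  · simp [hu, eq01]
  · intro v _ hv
    rcases hf v with h0 | h1
    · simp [h0]
    · have hne : cn f v ≠ cn f u := by
        rcases Nat.lt_or_gt_of_ne hv with hl | hl
        · exact (cn_lt f h1 hl).ne
        · exact (cn_lt f hu hl).ne'
      simp [eq01, hne]
  · intro hh
    exact absurd (mem_range.2 h) hh

end sel

variable {m : Mach}

/-! ### Cones -/

theorem walk_succ (t z π j : ℕ) :
    m.walk t z π (j + 1) = m.inp (t - 1 - j) (m.walk t z π j) (dig m.dg π j) := rfl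

theorem walk_zero (t z π : ℕ) : m.walk t z π 0 = z := rfl

theorem mem01 (t k z u : ℕ) : m.mem t k z u = 0 ∨ m.mem t k z u = 1 := by
  rw [Mach.mem, lt01]
  split_ifs <;> simp

theorem mem_iff (t k z u : ℕ) : m.mem t k z u = 1 ↔ ∃ π < m.dg ^ k, m.walk t z π k = u := by
  rw [Mach.mem, lt01]
  constructor
  · intro h
    split_ifs at h with h1
    by_contra hc
    push Not at hc
    have : ∑ π ∈ range (m.dg ^ k), eq01 (m.walk t z π k) u = 0 := by
      apply sum_eq_zero
      intro π hπ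
      rw [eq01, if_neg (hc π (mem_range.1 hπ))]
    omega
  · rintro ⟨π, hπ, h⟩
    rw [if_pos]
    refine sum_pos' (fun _ _ => Nat.zero_le _) ⟨π, mem_range.2 hπ, ?_⟩
    rw [eq01, if_pos h]
    exact Nat.one_pos

theorem mem_zero (t z u : ℕ) : m.mem t 0 z u = 1 ↔ z = u := by
  rw [mem_iff]
  constructor
  · rintro ⟨π, _, h⟩
    exact h
  · intro h
    exact ⟨0, by simp, h⟩

theorem dig_add {q π l k : ℕ} (hπ : π < q ^ k) {i : ℕ} (hi : i < k) :
    dig q (π + q ^ k * l) i = dig q π i := by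
  have hq : 0 < q := by
    rcases Nat.eq_zero_or_pos q with h | h
    · subst h
      rw [zero_pow (by omega)] at hπ
      omega
    · exact h
  have h1 : q ^ k = q ^ i * (q * q ^ (k - 1 - i)) := by
    rw [← pow_succ', ← pow_add]
    congr 1
    omega
  rw [dig, dig, h1, mul_assoc, Nat.add_mul_div_left _ _ (by positivity), mul_assoc,
    Nat.add_mul_mod_self_left]

theorem dig_add_top {q π l k : ℕ} (hπ : π < q ^ k) (hl : l < q) :
    dig q (π + q ^ k * l) k = l := by
  rw [dig, Nat.add_mul_div_left _ _ (by omega), Nat.div_eq_of_lt hπ, zero_add,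
    Nat.mod_eq_of_lt hl]

theorem walk_congr {t z π π' : ℕ} {j : ℕ} (h : ∀ i < j, dig m.dg π i = dig m.dg π' i) :
    m.walk t z π j = m.walk t z π' j := by
  induction j with
  | zero => rfl
  | succ j ih =>
    rw [walk_succ, walk_succ, ih fun i hi => h i (by omega), h j (by omega)]

theorem mem_succ {t k z u l : ℕ} (hu : m.mem t k z u = 1) (hl : l < m.dg) :
    m.mem t (k + 1) z (m.inp (t - (k + 1)) u l) = 1 := by
  rw [mem_iff] at hu ⊢
  obtain ⟨π, hπ, h⟩ := hu
  refine ⟨π + m.dg ^ k * l, ?_, ?_⟩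
  · have h3 : m.dg ^ k * (l + 1) ≤ m.dg ^ k * m.dg := Nat.mul_le_mul_left _ hl
    rw [pow_succ]
    calc π + m.dg ^ k * l < m.dg ^ k + m.dg ^ k * l := Nat.add_lt_add_right hπ _
      _ = m.dg ^ k * (l + 1) := by ring
      _ ≤ _ := h3
  · rw [walk_succ, dig_add_top hπ hl, walk_congr (π' := π) fun i hi => dig_add hπ hi, h]
    congr 1
    omega

/-- The members of a cone belong to every set which contains the first cell and is closed. -/
theorem mem_closed {G : ℕ → Prop} (hG : ∀ t z i, G z → i < m.dg → G (m.inp t z i)) {t k z u : ℕ}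
    (hz : G z) (hu : m.mem t k z u = 1) : G u := by
  rw [mem_iff] at hu
  obtain ⟨π, hπ, rfl⟩ := hu
  have key : ∀ j ≤ k, G (m.walk t z π j) := by
    intro j
    induction j with
    | zero => intro _; exact hz
    | succ j ih =>
      intro hj
      have hd : 0 < m.dg := by
        rcases Nat.eq_zero_or_pos m.dg with h | h
        · rw [h, zero_pow (by omega)] at hπ
          omega
        · exact h
      rw [walk_succ]
      exact hG _ _ _ (ih (by omega)) (dig_lt hd _ _)
  exact key k le_rfl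

theorem cnt_lt {t k z u : ℕ} (hu : m.mem t k z u = 1) (h : u < m.Wd) :
    m.cnt t k z u < m.cnt t k z m.Wd := cn_lt (m.mem t k z) hu h

theorem sel_cnt {t k z u : ℕ} (hu : m.mem t k z u = 1) (h : u < m.Wd) :
    m.sel t k z (m.cnt t k z u) = u := sel_cn (mem01 t k z) hu h

theorem cnt_zero (t z : ℕ) : m.cnt t 0 z z = 0 := by
  rw [Mach.cnt]
  apply sum_eq_zero
  intro v hv
  rcases mem01 (m := m) t 0 z v with h | h
  · exact h
  · rw [mem_zero] at h
    rw [mem_range] at hv
    omega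

/-! ### The table -/

/-- The relation between computed and true values: equality, or failure if `E` holds. -/
def Rl (E : Prop) (x y : ℕ) : Prop := x = y ∨ (E ∧ x = 0)

theorem tbl_zero (t z a : ℕ) : m.tbl t z a 0 = a := rfl

theorem tbl_succ (t z a e : ℕ) : m.tbl t z a (e + 1) = tab (2 ^ m.σ) m.V fun i =>
    m.upd (t - (min m.B t - e)) (m.sel t (min m.B t - (e + 1)) z i)
      (tab (2 ^ m.σ) m.dg fun l => dig (2 ^ m.σ) (m.tbl t z a e) (m.cnt t (min m.B t - e) z
        (m.inp (t - (min m.B t - e)) (m.sel t (min m.B t - (e + 1)) z i) l))) := rfl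

theorem mem_lt (hm : m.Ok) {t k z u : ℕ} (hz : z < m.Wd) (hu : m.mem t k z u = 1) : u < m.Wd :=
  mem_closed (G := fun z => z < m.Wd) (fun _ _ _ _ _ => hm.hinp _ _ _) hz hu

theorem tbl_claim (hm : m.Ok) {E : Prop} {t z a : ℕ} (hz : z < m.Wd)
    (hsm : ∀ j ≤ min m.B t, m.cnt t j z m.Wd ≤ m.V)
    (h0 : ∀ u, m.mem t (min m.B t) z u = 1 →
      Rl E (dig (2 ^ m.σ) a (m.cnt t (min m.B t) z u)) (m.cont (t - min m.B t) u)) :
    ∀ e ≤ min m.B t, ∀ u, m.mem t (min m.B t - e) z u = 1 →
      Rl E (dig (2 ^ m.σ) (m.tbl t z a e) (m.cnt t (min m.B t - e) z u))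
        (m.cont (t - (min m.B t - e)) u) := by
  intro e
  induction e with
  | zero =>
    intro _ u hu
    rw [tbl_zero]
    exact h0 u hu
  | succ e ih =>
    intro he u hu
    have ih := ih (by omega)
    have hq : 0 < 2 ^ m.σ := by positivity
    have huW := mem_lt hm hz hu
    have hi : m.cnt t (min m.B t - (e + 1)) z u < m.V :=
      lt_of_lt_of_le (cnt_lt hu huW) (hsm _ (by omega))
    rw [tbl_succ, dig_tab (fun i _ => hm.hupd _ _ _) hi, sel_cnt hu huW]
    have hk1 : min m.B t - (e + 1) + 1 = min m.B t - e := by omega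
    have hmem : ∀ l < m.dg, m.mem t (min m.B t - e) z
        (m.inp (t - (min m.B t - e)) u l) = 1 := by
      intro l hl
      have := mem_succ hu hl
      rwa [hk1] at this
    have hcont : m.cont (t - (min m.B t - (e + 1))) u = m.upd (t - (min m.B t - e)) u
        (tab (2 ^ m.σ) m.dg fun l => m.cont (t - (min m.B t - e))
          (m.inp (t - (min m.B t - e)) u l)) := by
      have : t - (min m.B t - (e + 1)) = t - (min m.B t - e) + 1 := by
        have := Nat.min_le_right m.B t
        omega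
      rw [this, Mach.cont]
    by_cases hz0 : ∃ l < m.dg, dig (2 ^ m.σ) (m.tbl t z a e) (m.cnt t (min m.B t - e) z
        (m.inp (t - (min m.B t - e)) u l)) ≠ m.cont (t - (min m.B t - e))
          (m.inp (t - (min m.B t - e)) u l)
    · obtain ⟨l, hl, hne⟩ := hz0
      rcases ih _ (hmem l hl) with h | ⟨hE, h⟩
      · exact absurd h hne
      · refine Or.inr ⟨hE, hm.hzero _ _ _ ⟨l, hl, ?_⟩⟩
        rw [dig_tab (fun i _ => dig_lt hq _ _) hl, h]
    · push Not at hz0
      left
      rw [hcont]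
      congr 1
      exact tab_congr fun l hl => hz0 l hl

theorem small_le (t z : ℕ) : m.small t z ≤ 1 := by
  rw [Mach.small, eq01]
  split_ifs <;> simp

theorem small_iff (t z : ℕ) : m.small t z = 1 ↔ ∀ j ≤ min m.B t, m.cnt t j z m.Wd ≤ m.V := by
  rw [Mach.small, eq01]
  constructor
  · intro h j hj
    split_ifs at h with h1
    rw [sum_eq_zero_iff] at h1
    have := h1 j (mem_range.2 (by omega))
    rw [lt01] at this
    split_ifs at this with h2
    omega
  · intro h
    rw [if_pos]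
    apply sum_eq_zero
    intro j hj
    rw [mem_range] at hj
    rw [lt01, if_neg]
    have := h j (by omega)
    omega

theorem nF_lt (m : Mach) (u a : ℕ) : m.nF u a < 2 ^ m.σ := by
  have h1 := small_le (m := m) (u / m.Wd) (u % m.Wd)
  have h2 := dig_lt (q := 2 ^ m.σ) (by positivity)
    (m.tbl (u / m.Wd) (u % m.Wd) a (min m.B (u / m.Wd))) 0
  rw [Mach.nF]
  calc _ ≤ 1 * _ := Nat.mul_le_mul_right _ h1
    _ < _ := by rw [one_mul]; exact h2

theorem leaf_lt (hm : m.Ok) (u : ℕ) : m.leaf u < 2 ^ m.σ := by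
  rw [Mach.leaf, ifz]
  split_ifs
  · exact hm.hini _
  · positivity

theorem gv_lt (hm : m.Ok) (h u : ℕ) : gval m.V m.σ m.nF m.leaf m.ch h u < 2 ^ m.σ :=
  gval_lt (nF_lt m) (leaf_lt hm) h u

theorem div_eq (hm : m.Ok) {z : ℕ} (t : ℕ) (hz : z < m.Wd) : (t * m.Wd + z) / m.Wd = t := by
  rw [mul_comm, Nat.mul_add_div hm.hW, Nat.div_eq_of_lt hz, add_zero]

theorem mod_eq (t : ℕ) {z : ℕ} (hz : z < m.Wd) : (t * m.Wd + z) % m.Wd = z := by
  rw [mul_comm, Nat.mul_add_mod, Nat.mod_eq_of_lt hz]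

/-- The value of an inner node. -/
theorem step (hm : m.Ok) {E : Prop} {t z h : ℕ} (hz : z < m.Wd)
    (hsm : ∀ j ≤ min m.B t, m.cnt t j z m.Wd ≤ m.V)
    (ih : ∀ u, m.mem t (min m.B t) z u = 1 →
      Rl E (gval m.V m.σ m.nF m.leaf m.ch h ((t - min m.B t) * m.Wd + u))
        (m.cont (t - min m.B t) u)) :
    Rl E (gval m.V m.σ m.nF m.leaf m.ch (h + 1) (t * m.Wd + z)) (m.cont t z) := by
  rw [gval, Mach.nF, div_eq hm t hz, mod_eq t hz, (small_iff t z).2 hsm, one_mul]
  have key := tbl_claim hm (E := E) (t := t) (z := z)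
    (a := tab (2 ^ m.σ) m.V fun i => gval m.V m.σ m.nF m.leaf m.ch h (m.ch (t * m.Wd + z) i))
    hz hsm ?_ (min m.B t) le_rfl z ?_
  · rw [Nat.sub_self, Nat.sub_zero, cnt_zero] at key
    exact key
  · intro u hu
    have huW := mem_lt hm hz hu
    have hi : m.cnt t (min m.B t) z u < m.V := lt_of_lt_of_le (cnt_lt hu huW) (hsm _ le_rfl)
    rw [dig_tab (fun i _ => gv_lt hm _ _) hi, Mach.ch, div_eq hm t hz, mod_eq t hz,
      sel_cnt hu huW]
    have : t - m.B = t - min m.B t := by omega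
    rw [this]
    exact ih u hu
  · rw [Nat.sub_self, mem_zero]

theorem part1 (hm : m.Ok) (h : ℕ) : ∀ t z, z < m.Wd →
    Rl True (gval m.V m.σ m.nF m.leaf m.ch h (t * m.Wd + z)) (m.cont t z) := by
  induction h with
  | zero =>
    intro t z hz
    rw [gval, Mach.leaf, div_eq hm t hz, mod_eq t hz]
    rcases Nat.eq_zero_or_pos t with rfl | ht
    · rw [ifz_zero]
      exact Or.inl rfl
    · rw [ifz_ne (by omega)]
      exact Or.inr ⟨trivial, rfl⟩
  | succ h ih =>
    intro t z hz
    by_cases hsm : ∀ j ≤ min m.B t, m.cnt t j z m.Wd ≤ m.V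
    · exact step hm hz hsm fun u hu => ih _ _ (mem_lt hm hz hu)
    · refine Or.inr ⟨trivial, ?_⟩
      have h1 := small_le (m := m) t z
      have h2 : m.small t z ≠ 1 := fun hh => hsm ((small_iff t z).1 hh)
      have h3 : m.small t z = 0 := by omega
      rw [gval, Mach.nF, div_eq hm t hz, mod_eq t hz, h3, zero_mul]

theorem part2 (hm : m.Ok) (G : ℕ → Prop) (hGW : ∀ z, G z → z < m.Wd)
    (hG : ∀ t z i, G z → i < m.dg → G (m.inp t z i)) (h : ℕ) : ∀ t, t ≤ h * m.B →
    (∀ t' ≤ t, ∀ z, G z → ∀ k ≤ m.B, k ≤ t' → m.cnt t' k z m.Wd ≤ m.V) →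
    ∀ z, G z → gval m.V m.σ m.nF m.leaf m.ch h (t * m.Wd + z) = m.cont t z := by
  induction h with
  | zero =>
    intro t ht _ z hz
    obtain rfl : t = 0 := by omega
    rw [gval, Mach.leaf, div_eq hm 0 (hGW z hz), mod_eq 0 (hGW z hz), ifz_zero]
    rfl
  | succ h ih =>
    intro t ht hV z hz
    have key := step hm (E := False) (t := t) (z := z) (h := h) (hGW z hz)
      (fun j hj => hV t le_rfl z hz j (le_trans hj (min_le_left _ _))
        (le_trans hj (min_le_right _ _))) ?_
    · rcases key with h1 | ⟨h1, _⟩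
      · exact h1
      · exact h1.elim
    · intro u hu
      refine Or.inl (ih _ ?_ (fun t' ht' => hV t' (by omega)) u (mem_closed hG hz hu))
      rw [Nat.succ_mul] at ht
      omega

theorem tree : TREE_stmt := by
  intro m hm
  refine ⟨fun t z hz hne => ?_, fun G hGW hG t ht hV z hz => part2 hm G hGW hG m.K t ht hV z hz⟩
  rcases part1 hm m.K t z hz with h | ⟨_, h⟩
  · exact h
  · exact absurd h hne

end Pool.Agent.Helper87.NW
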